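import Pool.Agent.H7.VQ.RC

/-!
# FL: decoupling in degree three (helper7)
-/

set_option autoImplicit false

open Finset Polynomial

namespace Pool.Agent.H7.VQ

open Pool.Agent.H11.CV Pool.Agent.H39.VQ

/-- FL: decoupling in degree three -/
theorem fl (hSO : V_SO) (hLF : T_LF) (hL0 : T_L0) : V_FL := by
  intro p hp hpd
  obtain ⟨C0, hC0, so⟩ := hSO p hp hpd
  obtain ⟨C1, hC1, lf⟩ := hLF p 3 hp.one_lt (by norm_num)
  obtain ⟨C, hC, hCe⟩ := exp_absorb C1 C0 C1 (Nat.cast_nonneg _) hC0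
  refine ⟨4 * C, by positivity, ?_⟩
  intro n hn
  have hn1 : (1 : ℝ) ≤ n := by exact_mod_cast hn
  have h1 : (1 : ℝ) ≤ Real.exp (C0 * Real.log ((n : ℝ) + 2) ^ 2) :=
    Real.one_le_exp (by positivity)
  refine (hL0 p 3 hp.one_lt (by norm_num)).2.2 n _ _ ?_ (lf n _ h1 (so n))
  have hlog : Real.log ((n : ℝ) + 2) ≤ 2 * Real.log ((n : ℝ) + 1) := by
    have h2 : 2 * Real.log ((n : ℝ) + 1) = Real.log (((n : ℝ) + 1) ^ 2) := by
      rw [Real.log_pow]; norm_num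
    rw [h2]
    apply Real.log_le_log (by linarith)
    nlinarith
  have hlog0 : 0 ≤ Real.log ((n : ℝ) + 2) := Real.log_nonneg (by linarith)
  calc (C1 : ℝ) * ((n : ℝ) + 1) ^ C1 * Real.exp (C0 * Real.log ((n : ℝ) + 2) ^ 2) ≤
        (C1 : ℝ) * ((n : ℝ) + 2) ^ C1 * Real.exp (C0 * Real.log ((n : ℝ) + 2) ^ 2) := by
        gcongr
        norm_num
    _ ≤ Real.exp (C * Real.log ((n : ℝ) + 2) ^ 2) := hCe n
    _ ≤ Real.exp (4 * C * Real.log ((n : ℝ) + 1) ^ 2) := by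
        apply Real.exp_le_exp.mpr
        have h3 : Real.log ((n : ℝ) + 2) ^ 2 ≤ (2 * Real.log ((n : ℝ) + 1)) ^ 2 :=
          pow_le_pow_left₀ hlog0 hlog 2
        nlinarith

end Pool.Agent.H7.VQ
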