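import Pool.Agent.H11.CV.RC
import Pool.Agent.H39.VQ.Targets

/-!
# RC: the recursion in degree three (helper7)
-/

set_option autoImplicit false

open Finset Polynomial

namespace Pool.Agent.H7.VQ

open Pool.Agent.H11.CV Pool.Agent.H39.VQ

/-- `K (n + 2)^q exp (C0 log(n+2)^2) ≤ exp (C log(n+2)^2)` -/
theorem exp_absorb (K C0 : ℝ) (q : ℕ) (hK : 0 ≤ K) (hC0 : 0 ≤ C0) :
    ∃ C : ℝ, 0 ≤ C ∧ ∀ n : ℕ, K * ((n : ℝ) + 2) ^ q *
      Real.exp (C0 * Real.log ((n : ℝ) + 2) ^ 2) ≤ Real.exp (C * Real.log ((n : ℝ) + 2) ^ 2) := by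
  have hl2 : 0 < Real.log 2 := Real.log_pos (by norm_num)
  refine ⟨C0 + K / Real.log 2 ^ 2 + q / Real.log 2, by positivity, ?_⟩
  intro n
  set l : ℝ := Real.log ((n : ℝ) + 2) with hl
  have hn0 : (0 : ℝ) ≤ n := Nat.cast_nonneg n
  have hl2' : Real.log 2 ≤ l := Real.log_le_log (by norm_num) (by linarith)
  have hlpos : 0 < l := by linarith
  have h1 : K ≤ Real.exp (K / Real.log 2 ^ 2 * l ^ 2) := by
    have h2 : K ≤ K / Real.log 2 ^ 2 * l ^ 2 := by
      rw [div_mul_eq_mul_div, le_div_iff₀ (by positivity)]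
      apply mul_le_mul_of_nonneg_left _ hK
      exact pow_le_pow_left₀ hl2.le hl2' 2
    have h3 := Real.add_one_le_exp (K / Real.log 2 ^ 2 * l ^ 2)
    linarith
  have h4 : ((n : ℝ) + 2) ^ q ≤ Real.exp (q / Real.log 2 * l ^ 2) := by
    have h5 : ((n : ℝ) + 2) ^ q = Real.exp (q * l) := by
      rw [Real.exp_nat_mul, hl, Real.exp_log (by linarith)]
    rw [h5]
    apply Real.exp_le_exp.mpr
    rw [div_mul_eq_mul_div, le_div_iff₀ hl2]
    have h6 : (0 : ℝ) ≤ q * l := by positivity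
    nlinarith
  calc K * ((n : ℝ) + 2) ^ q * Real.exp (C0 * l ^ 2) ≤
        Real.exp (K / Real.log 2 ^ 2 * l ^ 2) * Real.exp (q / Real.log 2 * l ^ 2) *
          Real.exp (C0 * l ^ 2) := by gcongr
    _ = _ := by
        rw [← Real.exp_add, ← Real.exp_add]
        congr 1
        ring

/-- the recursion for a general bound of the sets `Om` -/
theorem rc_gen (hOM : T_OM) (hBN : T_BN) (hNA : T_NA) (hBR : T_BR) (hRS : T_RS)
    (hL2 : T_L2) (p d : ℕ) (hp : p.Prime) (hpd : 16 * d ^ 3 ≤ p) (hd : 2 ≤ d) (C0 : ℝ)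
    (hC0 : 0 ≤ C0)
    (ob : ∀ (n j : ℕ) (Dst lam : ℝ) (G : Type) [AddCommGroup G] [Fintype G] (τ : ℤ[X] →+ G)
      (f : ℕ → G → ℂ), 1 ≤ j → j < n → 1 ≤ Dst → 1 ≤ lam → (∀ i : ℕ, i < n → Lev p d i Dst) →
      Fam p d n τ f → Bd p n f →
        cnt (Om p n lam f j) * ((p : ℝ) ^ n) ^ (KK (d - 1) + 1) ≤
          Real.exp (C0 * Real.log ((n : ℝ) + 2) ^ 2) * Dst ^ ((4 : ℝ) / 5) *
            lam ^ (2 * KK (d - 1)) * En p n f) :
    ∃ C : ℝ, 0 ≤ C ∧ ∀ (n : ℕ) (Dst : ℝ), 1 ≤ n → 1 ≤ Dst →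
      (∀ i : ℕ, i < n → Lev p d i Dst) →
        Lev p d n (Dst / 2 + Real.exp (C * Real.log ((n : ℝ) + 2) ^ 2) *
          Dst ^ ((4 : ℝ) / 5)) := by
  have hp1 : 1 < p := hp.one_lt
  have hpR : (1 : ℝ) < p := by exact_mod_cast hp1
  have hp0 : (0 : ℝ) < p := by linarith
  have hdp : d < p := by
    have h1 : d ≤ d ^ 3 := Nat.le_self_pow (by norm_num) d
    omega
  have hd1 : 1 ≤ d := by omega
  set K := KK d with hK
  set κ := KK (d - 1) with hκ
  have hKκ : K = κ + d := KK_eq d hd1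
  have hκ1 : 1 ≤ κ := KK_pos (d - 1) (by omega)
  have hK3 : 3 ≤ K := KK_ge_three d hd
  set c1 : ℝ := (p : ℝ) ^ d * (4 * (p : ℝ)) ^ (2 * d) * (3 * (p : ℝ)) ^ d *
    (24 * (d : ℝ)) ^ (2 * κ) with hc1
  set c2 : ℝ := c1 + (16 * (p : ℝ)) ^ (K - 1) with hc2
  have hc10 : 0 ≤ c1 := by positivity
  have hc20 : 0 ≤ c2 := by positivity
  have hc2a : (16 * (p : ℝ)) ^ (K - 1) ≤ c2 := by linarith
  have hc2b : c1 ≤ c2 := by
    have : 0 ≤ (16 * (p : ℝ)) ^ (K - 1) := by positivity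
    linarith
  obtain ⟨C, hC, hCe⟩ := exp_absorb c2 C0 (2 * κ + 1) hc20 hC0
  refine ⟨C, hC, ?_⟩
  intro n Dst hn hDst hLev G _ _ τ f hFam hBd α hα
  have hn1 : (1 : ℝ) ≤ n := by exact_mod_cast hn
  set X : ℝ := (p : ℝ) ^ n with hX
  have hX0 : 0 < X := by positivity
  set E := En p n f with hE
  have hE0 : 0 ≤ E := by
    rw [hE]; unfold En
    exact Finset.sum_nonneg fun _ _ => Finset.sum_nonneg fun _ _ => by positivity
  have hXK : (p : ℝ) ^ (n * (K - 1)) = X ^ (K - 1) := by rw [hX, pow_mul]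
  set β : ℝ := Real.exp (C0 * Real.log ((n : ℝ) + 2) ^ 2) * Dst ^ ((4 : ℝ) / 5) with hβ
  have hDs : (1 : ℝ) ≤ Dst ^ ((4 : ℝ) / 5) := Real.one_le_rpow hDst (by norm_num)
  have hβ1 : 1 ≤ β := by
    rw [hβ]
    have h1 : (1 : ℝ) ≤ Real.exp (C0 * Real.log ((n : ℝ) + 2) ^ 2) :=
      Real.one_le_exp (by positivity)
    nlinarith
  have hnn : (1 : ℝ) ≤ ((n : ℝ) + 1) ^ (2 * κ + 1) := one_le_pow₀ (by linarith)
  -- the bound with the intermediate constant
  have hmain : cnt {g : G | α ≤ ‖∑ x ∈ range (p ^ n), f x g‖} * α ^ (2 * K) ≤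
      (Dst / 2 + c2 * ((n : ℝ) + 1) ^ (2 * κ + 1) * β) * X ^ (K - 1) * E := by
    set U : Set G := {g : G | α ≤ ‖∑ x ∈ range (p ^ n), f x g‖} with hU
    have hXKE : 0 ≤ X ^ (K - 1) * E := by positivity
    by_cases hsmall : α ^ 2 ≤ 16 * (p : ℝ) * X
    · -- trivial range
      have hL : ∑ g, ‖∑ x ∈ range (p ^ n), f x g‖ ^ 2 = E := by
        have h := hL2 p d (d * n) n G τ (range (p ^ n)) (fun i => (i : ℤ)) f (fun _ => 1) hp1
          hd1 (Nat.le_mul_of_pos_left n (by omega))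
          (fun i hi => hFam i (Finset.mem_range.mp hi))
          (fun i hi j hj hij hdvd => hij ((hRS p n 0 hp1).2.2.1 i j (Finset.mem_range.mp hi)
            (Finset.mem_range.mp hj) hdvd)) (fun _ => rfl)
        rw [hE]
        simpa [En] using h
      have h1 : cnt U * α ^ 2 ≤ E := by
        rw [← hL]
        refine cnt_mul_le U _ _ (fun g => by positivity) ?_
        intro g hg
        exact pow_le_pow_left₀ hα.le hg 2
      have h2 : α ^ (2 * K) = α ^ 2 * (α ^ 2) ^ (K - 1) := by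
        rw [← pow_succ', ← pow_mul]; congr 1; omega
      calc cnt U * α ^ (2 * K) = (cnt U * α ^ 2) * (α ^ 2) ^ (K - 1) := by rw [h2]; ring
        _ ≤ E * (16 * (p : ℝ) * X) ^ (K - 1) := by
            apply mul_le_mul h1 (pow_le_pow_left₀ (by positivity) hsmall _) (by positivity) hE0
        _ = (16 * (p : ℝ)) ^ (K - 1) * (X ^ (K - 1) * E) := by rw [mul_pow]; ring
        _ ≤ (Dst / 2 + c2 * ((n : ℝ) + 1) ^ (2 * κ + 1) * β) * (X ^ (K - 1) * E) := by
            refine mul_le_mul_of_nonneg_right ?_ hXKE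
            have h3 : c2 ≤ c2 * ((n : ℝ) + 1) ^ (2 * κ + 1) := by nlinarith
            have h4 : c2 * ((n : ℝ) + 1) ^ (2 * κ + 1) ≤
              c2 * ((n : ℝ) + 1) ^ (2 * κ + 1) * β := by
              have : 0 ≤ c2 * ((n : ℝ) + 1) ^ (2 * κ + 1) := by positivity
              nlinarith
            linarith
        _ = _ := by ring
    · have hbig : 16 * (p : ℝ) * X < α ^ 2 := not_le.mp hsmall
      by_cases hUe : U = ∅
      · rw [hUe, cnt_empty, zero_mul]
        positivity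
      · obtain ⟨g₀, hg₀⟩ := Set.nonempty_iff_ne_empty.mpr hUe
        have hαX : α ≤ X := by
          refine le_trans hg₀ ?_
          calc ‖∑ x ∈ range (p ^ n), f x g₀‖ ≤ ∑ x ∈ range (p ^ n), ‖f x g₀‖ :=
                norm_sum_le _ _
            _ ≤ ∑ x ∈ range (p ^ n), (1 : ℝ) :=
                Finset.sum_le_sum fun x hx => hBd x (Finset.mem_range.mp hx) g₀
            _ = X := by simp [hX]
        have hdR : (2 : ℝ) ≤ d := by exact_mod_cast hd
        set B : ℝ := 24 * (d : ℝ) with hB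
        have hB24 : (24 : ℝ) ≤ B := by rw [hB]; linarith
        set lam : ℝ := B * (n : ℝ) * (p : ℝ) ^ n / α with hlam
        have hlam1 : 1 ≤ lam := by
          rw [hlam, le_div_iff₀ hα, one_mul, ← hX]
          calc α ≤ X := hαX
            _ = 1 * 1 * X := by ring
            _ ≤ B * (n : ℝ) * X := by gcongr; linarith
        set Nar : Set G := {g : G | ∃ c : ℕ, c < p ∧ α / (2 * d) ≤ ‖clsum p n f c g‖} with hNar
        set Brd : ℕ → Set G := fun j => {g : G | g ∈ Om p n lam f j ∧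
          ∃ c : Fin d → ℕ, Function.Injective c ∧ (∀ i, c i < p) ∧
            ∀ i, α / (4 * p) ≤ ‖clsum p (n - j) (pr p n lam f j) (c i) g‖} with hBrd
        have hsub : U ⊆ Nar ∪ {g | ∃ j ∈ Ico 1 n, g ∈ Brd j} := by
          intro g hg
          obtain ⟨j, hj1, hjn, hgO, hd1', hd2'⟩ := hOM p n α B lam G f g hp1 hn hB24 hα hbig
            hlam hBd hg
          have h3B : 3 * α / B = α / (8 * d) := by
            rw [hB]; field_simp; ring
          rw [h3B] at hd1' hd2'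
          have hs1 : ∑ x ∈ range (p ^ n), f x g = ∑ c ∈ range p, clsum p n f c g :=
            (hRS p n 0 hp1).2.2.2.2 hn ℂ (fun x => f x g)
          have hs2 : ∑ ξ ∈ range (p ^ (n - j)), pr p n lam f j ξ g =
              ∑ c ∈ range p, clsum p (n - j) (pr p n lam f j) c g :=
            (hRS p (n - j) 0 hp1).2.2.2.2 (by omega) ℂ (fun x => pr p n lam f j x g)
          have hbn := hBN p d α (fun c => clsum p n f c g)
            (fun c => clsum p (n - j) (pr p n lam f j) c g) hp1 hd1 hα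
            (by rw [← hs1]; exact hg) (by rw [← hs1, ← hs2]; exact hd1')
            (fun c _ => hd2' c)
          rcases hbn with h | h
          · exact Or.inl h
          · exact Or.inr ⟨j, Finset.mem_Ico.mpr ⟨hj1, hjn⟩, hgO, h⟩
        have hcnt : cnt U ≤ cnt Nar + ∑ j ∈ Ico 1 n, cnt (Brd j) :=
          le_trans (cnt_mono hsub) (le_trans (cnt_union _ _)
            (by gcongr; exact cnt_biUnion _ _))
        -- narrow part
        have hnar : cnt Nar * α ^ (2 * K) ≤ Dst / 2 * (X ^ (K - 1) * E) := by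
          have h := hNA p d n Dst α G τ f hp1 hd1 hn hα (hLev (n - 1) (by omega)) hFam hBd
          refine le_trans h ?_
          have h1 := rc_num p d hpd hd
          have h2 : X ^ (K - 1) = (p : ℝ) ^ ((n - 1) * (K - 1)) * (p : ℝ) ^ (K - 1) := by
            rw [← hXK, ← pow_add]
            congr 1
            obtain ⟨e, rfl⟩ : ∃ e, n = e + 1 := ⟨n - 1, by omega⟩
            simp only [Nat.add_sub_cancel]
            ring
          rw [h2]
          have h3 : 0 ≤ Dst * (p : ℝ) ^ ((n - 1) * (K - 1)) * E := by positivity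
          calc (2 * (d : ℝ)) ^ (2 * K) * Dst * (p : ℝ) ^ ((n - 1) * (K - 1)) * E =
                (2 * (d : ℝ)) ^ (2 * K) * (Dst * (p : ℝ) ^ ((n - 1) * (K - 1)) * E) := by ring
            _ ≤ ((p : ℝ) ^ (K - 1) / 2) * (Dst * (p : ℝ) ^ ((n - 1) * (K - 1)) * E) := by
                refine mul_le_mul_of_nonneg_right ?_ h3
                linarith
            _ = _ := by ring
        -- broad part
        have hbrd : ∀ j ∈ Ico 1 n, cnt (Brd j) * α ^ (2 * K) ≤
            c1 * (n : ℝ) ^ (2 * κ) * β * (X ^ (K - 1) * E) := by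
          intro j hj
          obtain ⟨hj1, hjn⟩ := Finset.mem_Ico.mp hj
          have hbr := hBR p d n j lam α G τ f hp hdp hd1 hj1 hjn hα hFam hBd
          have hob := ob n j Dst lam G τ f hj1 hjn hDst hlam1 hLev hFam hBd
          have hXk : 0 < X ^ (κ + 1) := by positivity
          have hαK : α ^ (2 * K) = α ^ (2 * d) * α ^ (2 * κ) := by
            rw [← pow_add]; congr 1; omega
          have hlamα : lam ^ (2 * κ) * α ^ (2 * κ) = (24 * (d : ℝ)) ^ (2 * κ) *
              (n : ℝ) ^ (2 * κ) * X ^ (2 * κ) := by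
            rw [← mul_pow, hlam, div_mul_cancel₀ _ hα.ne', ← hX, mul_pow, mul_pow]
          have hXX : X ^ d * X ^ (2 * κ) = X ^ (K - 1) * X ^ (κ + 1) := by
            rw [← pow_add, ← pow_add]; congr 1; omega
          have h1 : cnt (Brd j) * α ^ (2 * K) * X ^ (κ + 1) ≤
              c1 * (n : ℝ) ^ (2 * κ) * β * (X ^ (K - 1) * E) * X ^ (κ + 1) := by
            calc cnt (Brd j) * α ^ (2 * K) * X ^ (κ + 1) =
                  (cnt (Brd j) * α ^ (2 * d)) * (α ^ (2 * κ) * X ^ (κ + 1)) := by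
                  rw [hαK]; ring
              _ ≤ ((p : ℝ) ^ d * (4 * (p : ℝ)) ^ (2 * d) * (3 * (p : ℝ) * (p : ℝ) ^ n) ^ d *
                    cnt (Om p n lam f j)) * (α ^ (2 * κ) * X ^ (κ + 1)) :=
                  mul_le_mul_of_nonneg_right hbr (by positivity)
              _ = (p : ℝ) ^ d * (4 * (p : ℝ)) ^ (2 * d) * (3 * (p : ℝ)) ^ d * X ^ d *
                    α ^ (2 * κ) * (cnt (Om p n lam f j) * X ^ (κ + 1)) := by
                  rw [← hX, mul_pow (3 * (p : ℝ)) X d]; ring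
              _ ≤ (p : ℝ) ^ d * (4 * (p : ℝ)) ^ (2 * d) * (3 * (p : ℝ)) ^ d * X ^ d *
                    α ^ (2 * κ) * (β * lam ^ (2 * κ) * E) :=
                  mul_le_mul_of_nonneg_left hob (by positivity)
              _ = (p : ℝ) ^ d * (4 * (p : ℝ)) ^ (2 * d) * (3 * (p : ℝ)) ^ d * X ^ d *
                    β * E * (lam ^ (2 * κ) * α ^ (2 * κ)) := by ring
              _ = c1 * (n : ℝ) ^ (2 * κ) * β * E * (X ^ d * X ^ (2 * κ)) := by
                  rw [hlamα, hc1]; ring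
              _ = _ := by rw [hXX]; ring
          exact le_of_mul_le_mul_right h1 hXk
        have hsumb : (∑ j ∈ Ico 1 n, cnt (Brd j)) * α ^ (2 * K) ≤
            c1 * ((n : ℝ) + 1) ^ (2 * κ + 1) * β * (X ^ (K - 1) * E) := by
          rw [Finset.sum_mul]
          calc ∑ j ∈ Ico 1 n, cnt (Brd j) * α ^ (2 * K) ≤
                ∑ _j ∈ Ico 1 n, c1 * (n : ℝ) ^ (2 * κ) * β * (X ^ (K - 1) * E) :=
                Finset.sum_le_sum hbrd
            _ = ((n - 1 : ℕ) : ℝ) * (c1 * (n : ℝ) ^ (2 * κ) * β * (X ^ (K - 1) * E)) := by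
                rw [Finset.sum_const, Nat.card_Ico, nsmul_eq_mul]
            _ ≤ ((n : ℝ) + 1) * (c1 * ((n : ℝ) + 1) ^ (2 * κ) * β * (X ^ (K - 1) * E)) := by
                have h5 : ((n - 1 : ℕ) : ℝ) ≤ (n : ℝ) + 1 := by
                  have : ((n - 1 : ℕ) : ℝ) ≤ (n : ℝ) := Nat.cast_le.mpr (Nat.sub_le n 1)
                  linarith
                have hβ0 : 0 ≤ β := by linarith
                gcongr
                linarith
            _ = _ := by rw [pow_succ]; ring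
        calc cnt U * α ^ (2 * K) ≤ (cnt Nar + ∑ j ∈ Ico 1 n, cnt (Brd j)) * α ^ (2 * K) :=
              mul_le_mul_of_nonneg_right hcnt (by positivity)
          _ = cnt Nar * α ^ (2 * K) + (∑ j ∈ Ico 1 n, cnt (Brd j)) * α ^ (2 * K) := by ring
          _ ≤ Dst / 2 * (X ^ (K - 1) * E) +
              c1 * ((n : ℝ) + 1) ^ (2 * κ + 1) * β * (X ^ (K - 1) * E) :=
              add_le_add hnar hsumb
          _ ≤ Dst / 2 * (X ^ (K - 1) * E) +
              c2 * ((n : ℝ) + 1) ^ (2 * κ + 1) * β * (X ^ (K - 1) * E) := by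
              have hβ0 : 0 ≤ β := by linarith
              gcongr
          _ = _ := by ring
  -- final comparison of constants
  rw [hXK]
  refine le_trans hmain ?_
  have hXKE : 0 ≤ X ^ (K - 1) * E := by positivity
  have hfin : c2 * ((n : ℝ) + 1) ^ (2 * κ + 1) * β ≤
      Real.exp (C * Real.log ((n : ℝ) + 2) ^ 2) * Dst ^ ((4 : ℝ) / 5) := by
    have hDs0 : 0 ≤ Dst ^ ((4 : ℝ) / 5) := by linarith
    calc c2 * ((n : ℝ) + 1) ^ (2 * κ + 1) * β ≤
          c2 * ((n : ℝ) + 2) ^ (2 * κ + 1) * β := by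
          have hβ0 : 0 ≤ β := by linarith
          gcongr
          norm_num
      _ = (c2 * ((n : ℝ) + 2) ^ (2 * κ + 1) *
            Real.exp (C0 * Real.log ((n : ℝ) + 2) ^ 2)) * Dst ^ ((4 : ℝ) / 5) := by
          rw [hβ]; ring
      _ ≤ _ := mul_le_mul_of_nonneg_right (hCe n) hDs0
  rw [mul_assoc (Dst / 2 + c2 * ((n : ℝ) + 1) ^ (2 * κ + 1) * β), mul_assoc (Dst / 2 +
    Real.exp (C * Real.log ((n : ℝ) + 2) ^ 2) * Dst ^ ((4 : ℝ) / 5))]
  exact mul_le_mul_of_nonneg_right (by linarith) hXKE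

/-- RC: the recursion in degree three -/
theorem rc (hOM : T_OM) (hBN : T_BN) (hNA : T_NA) (hBR : T_BR) (hOB : V_OB) (hRS : T_RS)
    (hL2 : T_L2) : V_RC := by
  intro p hp hpd
  obtain ⟨C0, hC0, ob⟩ := hOB p hp (by omega)
  refine rc_gen hOM hBN hNA hBR hRS hL2 p 3 hp (by norm_num; omega) (by norm_num) C0 hC0 ?_
  intro n j Dst lam G _ _ τ f h1 h2 h3 h4 h5 h6 h7
  have hk : KK (3 - 1) = 3 := rfl
  rw [hk]
  exact ob n j Dst lam G τ f h1 h2 h3 h4 h5 h6 h7

end Pool.Agent.H7.VQ
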